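import Mathlib
import Pool.Agent.H.MP_82795f_nt.Main

namespace Pool.Agent.Results.MP_82795f_nt.Full

def K (c : ℕ) : Set ℕ :=
  {k | 0 < k ∧ ∀ n : ℕ, k ≤ (c + 1) * n → c * n ≤ k → n ∣ n.choose (k - c * n)}

def S : Set ℕ := {k | ∃ m : ℕ, (2 ^ 2 ^ m + 1).Prime ∧ 3 < 2 ^ 2 ^ m + 1 ∧ k = 2 * (2 ^ 2 ^ m + 1)}

theorem result : {c : ℕ | 2 ≤ c ∧ S ⊆ K c}.Infinite ∧ ¬ S ⊆ K 12 := by
  constructor
  · refine Set.infinite_of_not_bddAbove ?_
    rintro ⟨B, hB⟩
    have h16 : B + 4 < 2 ^ (B + 4) := Nat.lt_two_pow_self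
    have : 2 ^ (B + 4) - 1 ≤ B := by
      refine hB ⟨by omega, ?_⟩
      rintro k ⟨m, hp, -, rfl⟩
      refine ⟨by positivity, fun n h1 h2 => ?_⟩
      have hn : 0 < n := by
        rcases Nat.eq_zero_or_pos n with rfl | h
        · simp at h1
        · exact h
      refine Pool.Agent.H.MP_82795f_nt.main (B + 4) (by omega) (2 ^ m) hp n _ hn ?_ (by omega)
      rw [add_mul] at h1
      omega
    omega
  · intro h
    have := (h ⟨3, by norm_num, by norm_num, rfl⟩).2 40 (by norm_num) (by norm_num)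
    revert this
    decide +kernel

end Pool.Agent.Results.MP_82795f_nt.Full
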